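import Pool.Agent.V5helper28.KP.Stm3

/-!
# Project KP, job GOOD2: the dimension of the slices for codes with the product measure
-/

set_option autoImplicit false

namespace Pool.Agent.V5helper91.KP.Two

open MeasureTheory Set
open Pool.Agent.V5helper28.SSK Pool.Agent.V5helper28.KP
open scoped ENNReal

theorem X_ct {d : ℕ} {I : Type} (v a : I → E d) (t r : ℝ) (n : ℕ) (u : Fin n → I) :
    X (ct v a t) r n u = X a r n u + t • X v r n u := by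
  unfold X ct
  rw [Finset.smul_sum, ← Finset.sum_add_distrib]
  refine Finset.sum_congr rfl fun j _ => ?_
  rw [smul_add, smul_comm t]

theorem phi_eq {d : ℕ} {I : Type} (v a : I → E d) (t r : ℝ) (n : ℕ) (u : Fin n → I)
    (z w : E d × E d) (h : w = r ^ n • z + (X v r n u, X a r n u)) :
    w.2 + t • w.1 = r ^ n • (z.2 + t • z.1) + X (ct v a t) r n u := by
  rw [X_ct, h]
  simp only [Prod.fst_add, Prod.snd_add, Prod.smul_fst, Prod.smul_snd]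
  rw [smul_add, smul_add, smul_comm t (r ^ n)]
  abel

/-- cylinders -/
def cyl {m : ℕ} (n : ℕ) (u : Fin n → Fin m) : Set (ℕ → Fin m) := {ω | ∀ j : Fin n, ω j = u j}

theorem cyl_union {m : ℕ} (P : Measure (ℕ → Fin m))
    (hP : ∀ (n : ℕ) (u : Fin n → Fin m), P (cyl n u) = ENNReal.ofReal (((m : ℝ)⁻¹) ^ n)) (n : ℕ)
    (F : Finset (Fin n → Fin m)) :
    P (⋃ u ∈ F, cyl n u) ≤ (F.card : ℝ≥0∞) * ENNReal.ofReal (((m : ℝ)⁻¹) ^ n) := by
  refine (measure_biUnion_finset_le F _).trans ?_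
  rw [Finset.sum_congr rfl fun u _ => hP n u, Finset.sum_const, nsmul_eq_mul]

theorem t_GOOD2 (hMD : Pool.Agent.V5helper28.KP.S_MD2) : Pool.Agent.V5helper28.KP.S_GOOD2 := by
  classical
  intro d m v a r Γ π P _ hm hr0 hr1 hπ hP t R M A ρ l hl hA hρ0 hρ1 hR hM hbad Ω' hvol
  obtain ⟨L, hL⟩ : ∃ L : ℝ, L = Real.log r⁻¹ := ⟨_, rfl⟩
  have hLlog : Real.log r = -L := by rw [hL, Real.log_inv, neg_neg]
  have hL0 : 0 < L := by
    rw [hL]
    exact Real.log_pos (one_lt_inv₀ hr0 |>.2 hr1)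
  obtain ⟨s, hs⟩ : ∃ s : ℝ, s = Real.log m / Real.log r⁻¹ - Real.log A / (l * Real.log r⁻¹) := ⟨_, rfl⟩
  rw [← hs]
  rcases le_or_gt s 0 with hs0 | hs0
  · rw [ENNReal.ofReal_of_nonpos hs0]
    exact zero_le
  obtain ⟨y, hy⟩ : ∃ y : ℝ, y = r ^ l := ⟨_, rfl⟩
  have hy0 : 0 < y := by rw [hy]; exact pow_pos hr0 l
  have hy1 : y < 1 := by rw [hy]; exact pow_lt_one₀ hr0.le hr1 (by omega)
  have hypow : ∀ k : ℕ, r ^ (k * l) = y ^ k := fun k => by rw [hy, pow_mul']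
  have hA0 : 0 < A := lt_of_lt_of_le one_pos hA
  have hl0 : (0 : ℝ) < l := by exact_mod_cast (by omega : 0 < l)
  have hm0 : (0 : ℝ) < m := by exact_mod_cast hm
  have hys : y ^ s = ((m : ℝ)⁻¹) ^ l * A := by
    have h1 : Real.log y = -(l * L) := by
      rw [hy, Real.log_pow, hLlog]
      ring
    have h2 : Real.log y * s = l * Real.log ((m : ℝ)⁻¹) + Real.log A := by
      rw [h1, hs, ← hL, Real.log_inv]
      field_simp
      ring
    have h3 : ((m : ℝ)⁻¹) ^ l = Real.exp (l * Real.log ((m : ℝ)⁻¹)) := by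
      rw [← Real.log_pow, Real.exp_log (by positivity)]
    rw [Real.rpow_def_of_pos hy0, h2, Real.exp_add, Real.exp_log hA0, h3]
  have hP' : ∀ (n : ℕ) (u : Fin n → Fin m), P (cyl n u) = ENNReal.ofReal (((m : ℝ)⁻¹) ^ n) := hP
  -- the bad words
  let Bad : ∀ k : ℕ, Finset (Fin (k * l) → Fin m) := fun k => Finset.univ.filter fun u =>
    A ^ k < (Nat.card {u' : Fin (k * l) → Fin m //
      ‖X (ct v a t) r (k * l) u' - X (ct v a t) r (k * l) u‖ ≤ M * r ^ (k * l)} : ℝ)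
  have hBad : ∀ k, ((Bad k).card : ℝ) ≤ 2 * ρ ^ k * (m : ℝ) ^ (k * l) := by
    intro k
    have h1 := hbad k
    rw [Nat.card_eq_fintype_card, Fintype.card_subtype] at h1
    exact h1
  let B : ℕ → Set (ℕ → Fin m) := fun k => ⋃ u ∈ Bad k, cyl (k * l) u
  have hB : ∀ k, P (B k) ≤ ENNReal.ofReal (2 * ρ ^ k) := by
    intro k
    refine (cyl_union P hP' (k * l) (Bad k)).trans ?_
    have hmk : 0 ≤ ((m : ℝ)⁻¹) ^ (k * l) := pow_nonneg (inv_nonneg.2 hm0.le) _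
    rw [← ENNReal.ofReal_natCast, ← ENNReal.ofReal_mul (Nat.cast_nonneg _)]
    refine ENNReal.ofReal_le_ofReal ?_
    have h1 : (m : ℝ) ^ (k * l) * ((m : ℝ)⁻¹) ^ (k * l) = 1 := by
      rw [← mul_pow, mul_inv_cancel₀ hm0.ne', one_pow]
    calc ((Bad k).card : ℝ) * ((m : ℝ)⁻¹) ^ (k * l)
        ≤ (2 * ρ ^ k * (m : ℝ) ^ (k * l)) * ((m : ℝ)⁻¹) ^ (k * l) :=
          mul_le_mul_of_nonneg_right (hBad k) hmk
      _ = 2 * ρ ^ k * ((m : ℝ) ^ (k * l) * ((m : ℝ)⁻¹) ^ (k * l)) := by ring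
      _ = 2 * ρ ^ k := by rw [h1, mul_one]
  -- the tail
  obtain ⟨k₀, hk₀⟩ : ∃ k₀ : ℕ, P (⋃ j : ℕ, B (k₀ + j)) < P Ω' := by
    obtain ⟨ε, hε0, hε⟩ : ∃ ε : ℝ, 0 < ε ∧ ENNReal.ofReal ε < P Ω' := by
      obtain ⟨e, he0, he⟩ := exists_between (pos_iff_ne_zero.2 hvol)
      have he' : e ≠ ∞ := (lt_of_lt_of_le he le_top).ne
      exact ⟨e.toReal, ENNReal.toReal_pos he0.ne' he', by rwa [ENNReal.ofReal_toReal he']⟩
    have hlim : Filter.Tendsto (fun k : ℕ => 2 / (1 - ρ) * ρ ^ k) Filter.atTop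
        (nhds (2 / (1 - ρ) * 0)) :=
      (tendsto_pow_atTop_nhds_zero_of_lt_one hρ0.le hρ1).const_mul _
    rw [mul_zero] at hlim
    obtain ⟨k₀, hk₀⟩ := (hlim.eventually_lt_const hε0).exists
    refine ⟨k₀, lt_of_le_of_lt ?_ hε⟩
    refine (measure_iUnion_le _).trans ?_
    have hsum : HasSum (fun j : ℕ => 2 * ρ ^ (k₀ + j)) (2 / (1 - ρ) * ρ ^ k₀) := by
      have h1 := (hasSum_geometric_of_lt_one hρ0.le hρ1).mul_left (2 * ρ ^ k₀)
      have e1 : (fun j : ℕ => 2 * ρ ^ k₀ * ρ ^ j) = fun j : ℕ => 2 * ρ ^ (k₀ + j) := by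
        funext j
        rw [pow_add]
        ring
      have e2 : 2 * ρ ^ k₀ * (1 - ρ)⁻¹ = 2 / (1 - ρ) * ρ ^ k₀ := by
        rw [div_eq_mul_inv]
        ring
      rw [e1, e2] at h1
      exact h1
    calc ∑' j : ℕ, P (B (k₀ + j)) ≤ ∑' j : ℕ, ENNReal.ofReal (2 * ρ ^ (k₀ + j)) :=
          ENNReal.tsum_le_tsum fun j => hB _
      _ = ENNReal.ofReal (∑' j : ℕ, 2 * ρ ^ (k₀ + j)) :=
          (ENNReal.ofReal_tsum_of_nonneg (fun j => by positivity) hsum.summable).symm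
      _ ≤ ENNReal.ofReal ε := ENNReal.ofReal_le_ofReal (by rw [hsum.tsum_eq]; exact hk₀.le)
  -- the good part
  obtain ⟨Ω₂, hΩ₂⟩ : ∃ Ω₂ : Set (ℕ → Fin m), Ω₂ = {ω | ω ∈ Ω' ∧ ∀ k, k₀ ≤ k → ω ∉ B k} := ⟨_, rfl⟩
  have hΩ₂vol : P Ω₂ ≠ 0 := by
    intro h0
    have h1 : Ω' ⊆ Ω₂ ∪ ⋃ j : ℕ, B (k₀ + j) := by
      intro ω hω
      by_cases h2 : ∀ k, k₀ ≤ k → ω ∉ B k
      · exact Or.inl (by rw [hΩ₂]; exact ⟨hω, h2⟩)
      · push Not at h2
        obtain ⟨k, hk, h3⟩ := h2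
        refine Or.inr (mem_iUnion.2 ⟨k - k₀, ?_⟩)
        rwa [Nat.add_sub_cancel' hk]
    have h2 : P Ω' ≤ P Ω₂ + P (⋃ j : ℕ, B (k₀ + j)) :=
      (measure_mono h1).trans (measure_union_le _ _)
    rw [h0, zero_add] at h2
    exact absurd h2 (not_le.2 hk₀)
  have hsub : (fun ω => (π ω).2 + t • (π ω).1) '' Ω₂ ⊆ (fun ω => (π ω).2 + t • (π ω).1) '' Ω' := by
    refine image_mono fun ω hω => ?_
    rw [hΩ₂] at hω
    exact hω.1
  refine le_trans ?_ (dimH_mono hsub)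
  refine hMD d (ℕ → Fin m) P.toOuterMeasure Ω₂ (fun ω => (π ω).2 + t • (π ω).1) s ((y ^ s)⁻¹) (y ^ k₀)
    hs0.le (pow_pos hy0 _) (by positivity) ?_ hΩ₂vol
  intro U δ hδ0 hδ hU
  have hδ1 : δ ≤ 1 := hδ.trans (pow_le_one₀ hy0.le hy1.le)
  obtain ⟨k, hk1, hk2⟩ := exists_nat_pow_near_of_lt_one hδ0 hδ1 hy0 hy1
  have hkk : k₀ ≤ k := by
    by_contra h
    have h1 : k + 1 ≤ k₀ := by omega
    have h2 := pow_le_pow_of_le_one hy0.le hy1.le h1
    exact absurd (hk1.trans_le hδ) (not_lt.2 h2)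
  obtain ⟨F, hF⟩ : ∃ F : Finset (Fin (k * l) → Fin m), F = Finset.univ.filter fun u =>
      ∃ ω ∈ Ω₂ ∩ (fun ω => (π ω).2 + t • (π ω).1) ⁻¹' U, ∀ j : Fin (k * l), ω j = u j := ⟨_, rfl⟩
  have hFmem : ∀ u, u ∈ F ↔ ∃ ω ∈ Ω₂ ∩ (fun ω => (π ω).2 + t • (π ω).1) ⁻¹' U,
      ∀ j : Fin (k * l), ω j = u j := by
    intro u
    rw [hF]
    simp only [Finset.mem_filter, Finset.mem_univ, true_and]
  have hΨ : ∀ (u : Fin (k * l) → Fin m) (ω : ℕ → Fin m), (∀ j : Fin (k * l), ω j = u j) →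
      ∃ z ∈ Γ, (π ω).2 + t • (π ω).1 = r ^ (k * l) • (z.2 + t • z.1) + X (ct v a t) r (k * l) u := by
    intro u ω hω
    obtain ⟨z, hz, hzω⟩ := hπ (k * l) ω
    have hu : (fun j : Fin (k * l) => ω j) = u := funext hω
    rw [hu] at hzω
    exact ⟨z, hz, phi_eq v a t r (k * l) u z (π ω) hzω⟩
  have hcard : (F.card : ℝ) ≤ A ^ k := by
    rcases F.eq_empty_or_nonempty with h | ⟨u₀, hu₀⟩
    · rw [h, Finset.card_empty, Nat.cast_zero]
      positivity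
    · obtain ⟨ω₀, ⟨hω₀, hω₀U⟩, hu₀ω⟩ := (hFmem u₀).1 hu₀
      have hnb : u₀ ∉ Bad k := by
        intro h
        rw [hΩ₂] at hω₀
        exact hω₀.2 k hkk (mem_iUnion₂.2 ⟨u₀, h, hu₀ω⟩)
      have h1 : (Nat.card {u' : Fin (k * l) → Fin m //
          ‖X (ct v a t) r (k * l) u' - X (ct v a t) r (k * l) u₀‖ ≤ M * r ^ (k * l)} : ℝ) ≤ A ^ k := by
        by_contra h
        exact hnb (Finset.mem_filter.2 ⟨Finset.mem_univ _, not_le.1 h⟩)
      refine le_trans ?_ h1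
      rw [Nat.card_eq_fintype_card, Fintype.card_subtype]
      refine Nat.cast_le.2 (Finset.card_le_card fun u hu => ?_)
      rw [Finset.mem_filter]
      refine ⟨Finset.mem_univ _, ?_⟩
      obtain ⟨ω, ⟨hω, hωU⟩, huω⟩ := (hFmem u).1 hu
      obtain ⟨x, hx, e1⟩ := hΨ u ω huω
      obtain ⟨w₀, hw₀, e2⟩ := hΨ u₀ ω₀ hu₀ω
      have e3 : X (ct v a t) r (k * l) u - X (ct v a t) r (k * l) u₀ =
          (((π ω).2 + t • (π ω).1) - ((π ω₀).2 + t • (π ω₀).1)) -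
            r ^ (k * l) • ((x.2 + t • x.1) - (w₀.2 + t • w₀.1)) := by
        rw [e1, e2, smul_sub]
        abel
      have hd : ‖((π ω).2 + t • (π ω).1) - ((π ω₀).2 + t • (π ω₀).1)‖ ≤ δ := by
        rw [← dist_eq_norm]
        exact hU _ hωU _ hω₀U
      have hRR : ‖(x.2 + t • x.1) - (w₀.2 + t • w₀.1)‖ ≤ 2 * R := by
        have h2 := norm_sub_le (x.2 + t • x.1) (w₀.2 + t • w₀.1)
        have h3 := hR x hx
        have h4 := hR w₀ hw₀
        linarith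
      have hrk : 0 < r ^ (k * l) := pow_pos hr0 _
      rw [e3]
      calc ‖(((π ω).2 + t • (π ω).1) - ((π ω₀).2 + t • (π ω₀).1)) -
            r ^ (k * l) • ((x.2 + t • x.1) - (w₀.2 + t • w₀.1))‖
          ≤ ‖((π ω).2 + t • (π ω).1) - ((π ω₀).2 + t • (π ω₀).1)‖ +
            ‖r ^ (k * l) • ((x.2 + t • x.1) - (w₀.2 + t • w₀.1))‖ := norm_sub_le _ _
        _ ≤ δ + r ^ (k * l) * (2 * R) := by
            rw [norm_smul, Real.norm_of_nonneg hrk.le]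
            exact add_le_add hd (mul_le_mul_of_nonneg_left hRR hrk.le)
        _ ≤ r ^ (k * l) * (2 * R + 1) := by
            rw [hypow] at *
            nlinarith
        _ ≤ M * r ^ (k * l) := by
            rw [mul_comm M]
            exact mul_le_mul_of_nonneg_left hM hrk.le
  have hcover : Ω₂ ∩ (fun ω => (π ω).2 + t • (π ω).1) ⁻¹' U ⊆ ⋃ u ∈ F, cyl (k * l) u := by
    intro ω hω
    exact mem_iUnion₂.2 ⟨fun j => ω j, (hFmem _).2 ⟨ω, hω, fun j => rfl⟩, fun j => rfl⟩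
  have hgoal : P (Ω₂ ∩ (fun ω => (π ω).2 + t • (π ω).1) ⁻¹' U) ≤ ENNReal.ofReal ((y ^ s)⁻¹ * δ ^ s) := by
    refine (measure_mono hcover).trans ((cyl_union P hP' (k * l) F).trans ?_)
    have hmk : 0 ≤ ((m : ℝ)⁻¹) ^ (k * l) := pow_nonneg (inv_nonneg.2 hm0.le) _
    rw [← ENNReal.ofReal_natCast, ← ENNReal.ofReal_mul (Nat.cast_nonneg _)]
    refine ENNReal.ofReal_le_ofReal ?_
    have hys0 : 0 < y ^ s := Real.rpow_pos_of_pos hy0 s
    have hδs : (y ^ s) ^ (k + 1) ≤ δ ^ s := by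
      have h1 : (y ^ s) ^ (k + 1) = (y ^ (k + 1)) ^ s := by
        rw [← Real.rpow_natCast (y ^ s) (k + 1), ← Real.rpow_mul hy0.le, mul_comm,
          Real.rpow_mul hy0.le, Real.rpow_natCast]
      rw [h1]
      exact Real.rpow_le_rpow (by positivity) hk1.le hs0.le
    calc (F.card : ℝ) * ((m : ℝ)⁻¹) ^ (k * l) ≤ A ^ k * ((m : ℝ)⁻¹) ^ (k * l) :=
          mul_le_mul_of_nonneg_right hcard hmk
      _ = (y ^ s) ^ k := by
          rw [hys, mul_pow, ← pow_mul, mul_comm l k]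
          ring
      _ = (y ^ s)⁻¹ * (y ^ s) ^ (k + 1) := by
          rw [pow_succ]
          field_simp
      _ ≤ (y ^ s)⁻¹ * δ ^ s := mul_le_mul_of_nonneg_left hδs (by positivity)
  exact hgoal

end Pool.Agent.V5helper91.KP.Two
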