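import Pool.Agent.V5helper28.KP.Stm

/-!
# Project KP, job GOOD: the dimension of the slices, from a bound for the number of neighbours
-/

set_option autoImplicit false

namespace Pool.Agent.V5helper91.KP

open MeasureTheory Set
open Pool.Agent.V5helper28.SSK Pool.Agent.V5helper28.KP
open scoped ENNReal

theorem vol_piece {d : ℕ} (V : Set (E d)) (ρ : ℝ) (hρ : 0 ≤ ρ) (x₀ : E d) :
    volume ((fun x => ρ • x + x₀) '' V) = ENNReal.ofReal (ρ ^ d) * volume V := by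
  have h1 : (fun x => ρ • x + x₀) '' V = (fun y => y + x₀) '' ((fun x => ρ • x) '' V) := by
    rw [image_image]
  rw [h1, image_add_right, measure_preimage_add_right, image_smul, Measure.addHaar_smul,
    finrank_euclideanSpace_fin, abs_of_nonneg (pow_nonneg hρ d)]

theorem X_ct {d : ℕ} {I : Type} (v a : I → E d) (t r : ℝ) (n : ℕ) (u : Fin n → I) :
    X (ct v a t) r n u = X a r n u + t • X v r n u := by
  unfold X ct
  rw [Finset.smul_sum, ← Finset.sum_add_distrib]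
  refine Finset.sum_congr rfl fun j _ => ?_
  rw [smul_add, smul_comm t]

theorem phi_Sw {d : ℕ} {I : Type} (v a : I → E d) (t r : ℝ) (n : ℕ) (u : Fin n → I) (z : E d × E d) :
    (Sw v a r n u z).2 + t • (Sw v a r n u z).1 =
      r ^ n • (z.2 + t • z.1) + X (ct v a t) r n u := by
  rw [X_ct]
  unfold Sw
  simp only [Prod.fst_add, Prod.snd_add, Prod.smul_fst, Prod.smul_snd]
  rw [smul_add, smul_add, smul_comm t (r ^ n)]
  abel

theorem vol_union {d : ℕ} {I : Type} (v : I → E d) (r : ℝ) (hr : 0 ≤ r) (V : Set (E d)) (n : ℕ)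
    (F : Finset (Fin n → I)) :
    volume (⋃ u ∈ F, (fun x => r ^ n • x + X v r n u) '' V) ≤
      (F.card : ℝ≥0∞) * (ENNReal.ofReal ((r ^ n) ^ d) * volume V) := by
  refine (measure_biUnion_finset_le F _).trans ?_
  rw [Finset.sum_congr rfl fun u _ => vol_piece V (r ^ n) (pow_nonneg hr n) (X v r n u),
    Finset.sum_const, nsmul_eq_mul]

theorem t_GOOD (hMD : Pool.Agent.V5helper28.KP.S_MD) : Pool.Agent.V5helper28.KP.S_GOOD := by
  classical
  intro d I _ _ v a r Γ hr0 hr1 hN hΓ hcov t R M A ρ l hl hA hρ0 hρ1 hR hM hbad Γ' hΓ' hvol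
  obtain ⟨L, hL⟩ : ∃ L : ℝ, L = Real.log r⁻¹ := ⟨_, rfl⟩
  have hLlog : Real.log r = -L := by rw [hL, Real.log_inv, neg_neg]
  have hL0 : 0 < L := by
    rw [hL]
    exact Real.log_pos (one_lt_inv₀ hr0 |>.2 hr1)
  obtain ⟨s, hs⟩ : ∃ s : ℝ, s = d - Real.log A / (l * Real.log r⁻¹) := ⟨_, rfl⟩
  rw [← hs]
  rcases le_or_gt s 0 with hs0 | hs0
  · rw [ENNReal.ofReal_of_nonpos hs0]
    exact zero_le
  obtain ⟨y, hy⟩ : ∃ y : ℝ, y = r ^ l := ⟨_, rfl⟩
  have hy0 : 0 < y := by rw [hy]; exact pow_pos hr0 l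
  have hy1 : y < 1 := by rw [hy]; exact pow_lt_one₀ hr0.le hr1 (by omega)
  have hypow : ∀ k : ℕ, r ^ (k * l) = y ^ k := fun k => by rw [hy, pow_mul']
  have hA0 : 0 < A := lt_of_lt_of_le one_pos hA
  have hl0 : (0 : ℝ) < l := by exact_mod_cast (by omega : 0 < l)
  have hys : y ^ s = y ^ d * A := by
    have h1 : Real.log y = -(l * L) := by
      rw [hy, Real.log_pow, hLlog]
      ring
    have h2 : Real.log y * s = Real.log y * d + Real.log A := by
      rw [h1, hs, ← hL]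
      field_simp
      ring
    rw [Real.rpow_def_of_pos hy0, ← Real.rpow_natCast y d, Real.rpow_def_of_pos hy0, h2, Real.exp_add,
      Real.exp_log hA0]
  -- the volume of the slopes
  obtain ⟨V, hV⟩ : ∃ V : Set (E d), V = Prod.fst '' Γ := ⟨_, rfl⟩
  have hVfin : volume V ≠ ∞ := by
    rw [hV]
    exact (hΓ.image continuous_fst).measure_lt_top.ne
  obtain ⟨w, hw⟩ : ∃ w : ℝ, w = (volume V).toReal := ⟨_, rfl⟩
  have hw0 : 0 ≤ w := by rw [hw]; exact ENNReal.toReal_nonneg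
  have hVw : volume V = ENNReal.ofReal w := by rw [hw, ENNReal.ofReal_toReal hVfin]
  -- the bad words
  let Bad : ∀ k : ℕ, Finset (Fin (k * l) → I) := fun k => Finset.univ.filter fun u =>
    A ^ k < (Nat.card {u' : Fin (k * l) → I //
      ‖X (ct v a t) r (k * l) u' - X (ct v a t) r (k * l) u‖ ≤ M * r ^ (k * l)} : ℝ)
  have hBad : ∀ k, ((Bad k).card : ℝ) ≤ 2 * ρ ^ k * (Fintype.card I : ℝ) ^ (k * l) := by
    intro k
    have h1 := hbad k
    rw [Nat.card_eq_fintype_card, Fintype.card_subtype] at h1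
    exact h1
  let B : ℕ → Set (E d) := fun k => ⋃ u ∈ Bad k, (fun x => r ^ (k * l) • x + X v r (k * l) u) '' V
  have hB : ∀ k, volume (B k) ≤ ENNReal.ofReal (2 * w * ρ ^ k) := by
    intro k
    refine (vol_union v r hr0.le V (k * l) (Bad k)).trans ?_
    have hrk : 0 ≤ (r ^ (k * l)) ^ d := pow_nonneg (pow_nonneg hr0.le _) _
    rw [hVw, ← ENNReal.ofReal_mul hrk, ← ENNReal.ofReal_natCast,
      ← ENNReal.ofReal_mul (Nat.cast_nonneg _)]
    refine ENNReal.ofReal_le_ofReal ?_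
    have h1 : (Fintype.card I : ℝ) ^ (k * l) * (r ^ (k * l)) ^ d = 1 := by
      rw [← pow_mul r, mul_comm (k * l) d, pow_mul r d, ← mul_pow, hN, one_pow]
    calc ((Bad k).card : ℝ) * ((r ^ (k * l)) ^ d * w)
        ≤ (2 * ρ ^ k * (Fintype.card I : ℝ) ^ (k * l)) * ((r ^ (k * l)) ^ d * w) :=
          mul_le_mul_of_nonneg_right (hBad k) (mul_nonneg hrk hw0)
      _ = 2 * w * ρ ^ k * ((Fintype.card I : ℝ) ^ (k * l) * (r ^ (k * l)) ^ d) := by ring
      _ = 2 * w * ρ ^ k := by rw [h1, mul_one]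
  -- the tail
  obtain ⟨k₀, hk₀⟩ : ∃ k₀ : ℕ, volume (⋃ j : ℕ, B (k₀ + j)) < volume (Prod.fst '' Γ') := by
    obtain ⟨ε, hε0, hε⟩ : ∃ ε : ℝ, 0 < ε ∧ ENNReal.ofReal ε < volume (Prod.fst '' Γ') := by
      obtain ⟨e, he0, he⟩ := exists_between (pos_iff_ne_zero.2 hvol)
      have he' : e ≠ ∞ := (lt_of_lt_of_le he le_top).ne
      exact ⟨e.toReal, ENNReal.toReal_pos he0.ne' he', by rwa [ENNReal.ofReal_toReal he']⟩
    have hlim : Filter.Tendsto (fun k : ℕ => 2 * w / (1 - ρ) * ρ ^ k) Filter.atTop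
        (nhds (2 * w / (1 - ρ) * 0)) :=
      (tendsto_pow_atTop_nhds_zero_of_lt_one hρ0.le hρ1).const_mul _
    rw [mul_zero] at hlim
    obtain ⟨k₀, hk₀⟩ := (hlim.eventually_lt_const hε0).exists
    refine ⟨k₀, lt_of_le_of_lt ?_ hε⟩
    refine (measure_iUnion_le _).trans ?_
    have hsum : HasSum (fun j : ℕ => 2 * w * ρ ^ (k₀ + j)) (2 * w / (1 - ρ) * ρ ^ k₀) := by
      have h1 := (hasSum_geometric_of_lt_one hρ0.le hρ1).mul_left (2 * w * ρ ^ k₀)
      have e1 : (fun j : ℕ => 2 * w * ρ ^ k₀ * ρ ^ j) = fun j : ℕ => 2 * w * ρ ^ (k₀ + j) := by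
        funext j
        rw [pow_add]
        ring
      have e2 : 2 * w * ρ ^ k₀ * (1 - ρ)⁻¹ = 2 * w / (1 - ρ) * ρ ^ k₀ := by
        rw [div_eq_mul_inv]
        ring
      rw [e1, e2] at h1
      exact h1
    calc ∑' j : ℕ, volume (B (k₀ + j)) ≤ ∑' j : ℕ, ENNReal.ofReal (2 * w * ρ ^ (k₀ + j)) :=
          ENNReal.tsum_le_tsum fun j => hB _
      _ = ENNReal.ofReal (∑' j : ℕ, 2 * w * ρ ^ (k₀ + j)) :=
          (ENNReal.ofReal_tsum_of_nonneg (fun j => by positivity) hsum.summable).symm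
      _ ≤ ENNReal.ofReal ε := ENNReal.ofReal_le_ofReal (by rw [hsum.tsum_eq]; exact hk₀.le)
  -- the good part
  obtain ⟨Γ₂, hΓ₂⟩ : ∃ Γ₂ : Set (E d × E d), Γ₂ = {z | z ∈ Γ' ∧ ∀ k, k₀ ≤ k → z.1 ∉ B k} := ⟨_, rfl⟩
  have hΓ₂vol : volume (Prod.fst '' Γ₂) ≠ 0 := by
    intro h0
    have h1 : Prod.fst '' Γ' ⊆ Prod.fst '' Γ₂ ∪ ⋃ j : ℕ, B (k₀ + j) := by
      rintro _ ⟨z, hz, rfl⟩
      by_cases h2 : ∀ k, k₀ ≤ k → z.1 ∉ B k
      · exact Or.inl ⟨z, by rw [hΓ₂]; exact ⟨hz, h2⟩, rfl⟩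
      · push Not at h2
        obtain ⟨k, hk, h3⟩ := h2
        refine Or.inr (mem_iUnion.2 ⟨k - k₀, ?_⟩)
        rwa [Nat.add_sub_cancel' hk]
    have h2 : volume (Prod.fst '' Γ') ≤ volume (Prod.fst '' Γ₂) + volume (⋃ j : ℕ, B (k₀ + j)) :=
      (measure_mono h1).trans (measure_union_le _ _)
    rw [h0, zero_add] at h2
    exact absurd h2 (not_le.2 hk₀)
  have hsub : (fun z : E d × E d => z.2 + t • z.1) '' Γ₂ ⊆
      (fun z : E d × E d => z.2 + t • z.1) '' Γ' := by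
    refine image_mono fun z hz => ?_
    rw [hΓ₂] at hz
    exact hz.1
  refine le_trans ?_ (dimH_mono hsub)
  refine hMD d Γ₂ (fun z => z.2 + t • z.1) s ((y ^ s)⁻¹ * w) (y ^ k₀) hs0.le (pow_pos hy0 _)
    (by positivity) ?_ hΓ₂vol
  intro U δ hδ0 hδ hU
  have hδ1 : δ ≤ 1 := hδ.trans (pow_le_one₀ hy0.le hy1.le)
  obtain ⟨k, hk1, hk2⟩ := exists_nat_pow_near_of_lt_one hδ0 hδ1 hy0 hy1
  have hkk : k₀ ≤ k := by
    by_contra h
    have h1 : k + 1 ≤ k₀ := by omega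
    have h2 := pow_le_pow_of_le_one hy0.le hy1.le h1
    exact absurd (hk1.trans_le hδ) (not_lt.2 h2)
  obtain ⟨F, hF⟩ : ∃ F : Finset (Fin (k * l) → I), F = Finset.univ.filter fun u =>
      ∃ z ∈ Γ₂ ∩ (fun z : E d × E d => z.2 + t • z.1) ⁻¹' U, z ∈ Sw v a r (k * l) u '' Γ := ⟨_, rfl⟩
  have hFmem : ∀ u, u ∈ F ↔ ∃ z ∈ Γ₂ ∩ (fun z : E d × E d => z.2 + t • z.1) ⁻¹' U,
      z ∈ Sw v a r (k * l) u '' Γ := by
    intro u
    rw [hF]
    simp only [Finset.mem_filter, Finset.mem_univ, true_and]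
  have hcard : (F.card : ℝ) ≤ A ^ k := by
    rcases F.eq_empty_or_nonempty with h | ⟨u₀, hu₀⟩
    · rw [h, Finset.card_empty, Nat.cast_zero]
      positivity
    · obtain ⟨z₀, ⟨hz₀, hz₀U⟩, w₀, hw₀, hzw₀⟩ := (hFmem u₀).1 hu₀
      have hnb : u₀ ∉ Bad k := by
        intro h
        rw [hΓ₂] at hz₀
        refine hz₀.2 k hkk (mem_iUnion₂.2 ⟨u₀, h, w₀.1, ?_, ?_⟩)
        · rw [hV]
          exact ⟨w₀, hw₀, rfl⟩
        · rw [← hzw₀]
          rfl
      have h1 : (Nat.card {u' : Fin (k * l) → I //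
          ‖X (ct v a t) r (k * l) u' - X (ct v a t) r (k * l) u₀‖ ≤ M * r ^ (k * l)} : ℝ) ≤ A ^ k := by
        by_contra h
        exact hnb (Finset.mem_filter.2 ⟨Finset.mem_univ _, not_le.1 h⟩)
      refine le_trans ?_ h1
      rw [Nat.card_eq_fintype_card, Fintype.card_subtype]
      refine Nat.cast_le.2 (Finset.card_le_card fun u hu => ?_)
      rw [Finset.mem_filter]
      refine ⟨Finset.mem_univ _, ?_⟩
      obtain ⟨z, ⟨hz, hzU⟩, x, hx, hzx⟩ := (hFmem u).1 hu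
      have e1 : z.2 + t • z.1 = r ^ (k * l) • (x.2 + t • x.1) + X (ct v a t) r (k * l) u := by
        rw [← hzx]
        exact phi_Sw v a t r (k * l) u x
      have e2 : z₀.2 + t • z₀.1 = r ^ (k * l) • (w₀.2 + t • w₀.1) + X (ct v a t) r (k * l) u₀ := by
        rw [← hzw₀]
        exact phi_Sw v a t r (k * l) u₀ w₀
      have e3 : X (ct v a t) r (k * l) u - X (ct v a t) r (k * l) u₀ =
          ((z.2 + t • z.1) - (z₀.2 + t • z₀.1)) -
            r ^ (k * l) • ((x.2 + t • x.1) - (w₀.2 + t • w₀.1)) := by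
        rw [e1, e2, smul_sub]
        abel
      have hd : ‖(z.2 + t • z.1) - (z₀.2 + t • z₀.1)‖ ≤ δ := by
        rw [← dist_eq_norm]
        exact hU _ hzU _ hz₀U
      have hRR : ‖(x.2 + t • x.1) - (w₀.2 + t • w₀.1)‖ ≤ 2 * R := by
        have h2 := norm_sub_le (x.2 + t • x.1) (w₀.2 + t • w₀.1)
        have h3 := hR x hx
        have h4 := hR w₀ hw₀
        linarith
      have hrk : 0 < r ^ (k * l) := pow_pos hr0 _
      rw [e3]
      calc ‖((z.2 + t • z.1) - (z₀.2 + t • z₀.1)) -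
            r ^ (k * l) • ((x.2 + t • x.1) - (w₀.2 + t • w₀.1))‖
          ≤ ‖(z.2 + t • z.1) - (z₀.2 + t • z₀.1)‖ +
            ‖r ^ (k * l) • ((x.2 + t • x.1) - (w₀.2 + t • w₀.1))‖ := norm_sub_le _ _
        _ ≤ δ + r ^ (k * l) * (2 * R) := by
            rw [norm_smul, Real.norm_of_nonneg hrk.le]
            exact add_le_add hd (mul_le_mul_of_nonneg_left hRR hrk.le)
        _ ≤ r ^ (k * l) * (2 * R + 1) := by
            rw [hypow] at *
            nlinarith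
        _ ≤ M * r ^ (k * l) := by
            rw [mul_comm M]
            exact mul_le_mul_of_nonneg_left hM hrk.le
  have hcover : Prod.fst '' (Γ₂ ∩ (fun z : E d × E d => z.2 + t • z.1) ⁻¹' U) ⊆
      ⋃ u ∈ F, (fun x => r ^ (k * l) • x + X v r (k * l) u) '' V := by
    rintro _ ⟨z, hz, rfl⟩
    have hzΓ : z ∈ Γ := by
      have h1 := hz.1
      rw [hΓ₂] at h1
      exact hΓ' h1.1
    rw [hcov (k * l)] at hzΓ
    obtain ⟨u, hu⟩ := mem_iUnion.1 hzΓ
    refine mem_iUnion₂.2 ⟨u, (hFmem u).2 ⟨z, hz, hu⟩, ?_⟩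
    obtain ⟨x, hx, rfl⟩ := hu
    refine ⟨x.1, ?_, rfl⟩
    rw [hV]
    exact ⟨x, hx, rfl⟩
  refine (measure_mono hcover).trans ((vol_union v r hr0.le V (k * l) F).trans ?_)
  have hrkd : 0 ≤ (r ^ (k * l)) ^ d := pow_nonneg (pow_nonneg hr0.le _) _
  rw [hVw, ← ENNReal.ofReal_mul hrkd, ← ENNReal.ofReal_natCast,
    ← ENNReal.ofReal_mul (Nat.cast_nonneg _)]
  refine ENNReal.ofReal_le_ofReal ?_
  have hys0 : 0 < y ^ s := Real.rpow_pos_of_pos hy0 s
  have hδs : (y ^ s) ^ (k + 1) ≤ δ ^ s := by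
    have h1 : (y ^ s) ^ (k + 1) = (y ^ (k + 1)) ^ s := by
      rw [← Real.rpow_natCast (y ^ s) (k + 1), ← Real.rpow_mul hy0.le, mul_comm,
        Real.rpow_mul hy0.le, Real.rpow_natCast]
    rw [h1]
    exact Real.rpow_le_rpow (by positivity) hk1.le hs0.le
  calc (F.card : ℝ) * ((r ^ (k * l)) ^ d * w) ≤ A ^ k * ((r ^ (k * l)) ^ d * w) :=
        mul_le_mul_of_nonneg_right hcard (mul_nonneg hrkd hw0)
    _ = (y ^ s) ^ k * w := by
        rw [hypow, hys, mul_pow, ← pow_mul, ← pow_mul, mul_comm k d]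
        ring
    _ = (y ^ s)⁻¹ * w * (y ^ s) ^ (k + 1) := by
        rw [pow_succ]
        field_simp
    _ ≤ (y ^ s)⁻¹ * w * δ ^ s := mul_le_mul_of_nonneg_left hδs (by positivity)

end Pool.Agent.V5helper91.KP
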